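import Pool.Agent.L7h58.BP.Pow3
import Pool.Agent.L7h10.BP.GAU
import Pool.Agent.L7h10.BP.RED
import Pool.Agent.L7h10.BP.CRI
import Pool.Agent.L7h10.BP.LUC
import Pool.Agent.L7h29.BP.Fac
import Pool.Agent.L7h79.BP.Dls
import Pool.Agent.L7h79.BP.Prc
import Pool.Agent.L7h25.BP.Var

set_option autoImplicit false

/-!
# Bernoulli polynomials: a large irreducible factor for almost all even degrees
-/

namespace Pool.Agent.Results.MP_b354c3_nt.LargeFactorAlmostAll

open Polynomial Pool.Agent.L7h58.BP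

/-- There is a constant `C > 0` such that for every integer `N ≥ 2` and every real number `V ≥ 1` all but at
most `C N (log N)^3 / V` of the even positive integers `n ≤ N` have the following property: the Bernoulli
polynomial `B_n(x)` has a factor `h`, irreducible over `ℚ`, with `deg h ≥ n - V n^(1/2)`. -/
theorem result : ∃ C : ℝ, 0 < C ∧ ∀ N : ℕ, 2 ≤ N → ∀ V : ℝ, 1 ≤ V →
    (Nat.card {n : ℕ // 1 ≤ n ∧ n ≤ N ∧ Even n ∧ ¬ ∃ h : ℚ[X], Irreducible h ∧
      h ∣ Polynomial.bernoulli n ∧ (n : ℝ) - V * Real.sqrt n ≤ h.natDegree} : ℝ) ≤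
      C * N * Real.log N ^ 3 / V :=
  s_UNI (Pool.Agent.L7h10.BP.s_LOC (Pool.Agent.L7h10.BP.s_CRI Pool.Agent.L7h10.BP.s_GAU
      Pool.Agent.L7h10.BP.s_RED) Pool.Agent.L7h10.BP.s_LUC) Pool.Agent.L7h29.BP.s_FAC
    (Pool.Agent.L7h25.BP.s_VAR Pool.Agent.L7h79.BP.s_DLS) Pool.Agent.L7h79.BP.s_PRC

end Pool.Agent.Results.MP_b354c3_nt.LargeFactorAlmostAll
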