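import Pool.Agent.L7h58.BP.Alb
import Pool.Agent.L7h10.BP.GAU
import Pool.Agent.L7h10.BP.RED
import Pool.Agent.L7h10.BP.CRI
import Pool.Agent.L7h10.BP.LUC
import Pool.Agent.L7h29.BP.Fac
import Pool.Agent.L7h44.BP.K2
import Pool.Agent.L7h44.BP.TyI
import Pool.Agent.L7h44.BP.TyII
import Pool.Agent.L7h22.BP.Exp
import Pool.Agent.L7h25.BP.Aln

set_option autoImplicit false

/-!
# Bernoulli polynomials: a large irreducible factor for every large even degree
-/

namespace Pool.Agent.Results.MP_b354c3_nt.LargeFactorEveryDegree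

open Polynomial Pool.Agent.L7h58.BP

/-- For every sufficiently large even integer `n` the Bernoulli polynomial `B_n(x)` has a factor,
irreducible over `ℚ`, of degree at least `n - n^(99/100)`. -/
theorem result : ∃ N0 : ℕ, ∀ n : ℕ, N0 ≤ n → Even n → ∃ h : ℚ[X], Irreducible h ∧
    h ∣ Polynomial.bernoulli n ∧ (n : ℝ) - (n : ℝ) ^ (99 / 100 : ℝ) ≤ h.natDegree :=
  s_ALB (Pool.Agent.L7h10.BP.s_LOC (Pool.Agent.L7h10.BP.s_CRI Pool.Agent.L7h10.BP.s_GAU
      Pool.Agent.L7h10.BP.s_RED) Pool.Agent.L7h10.BP.s_LUC) Pool.Agent.L7h29.BP.s_FAC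
    (Pool.Agent.L7h25.BP.s_ALN (Pool.Agent.L7h22.BP.s_EXP
      (Pool.Agent.L7h44.BP.s_TYI Pool.Agent.L7h44.BP.s_K2)
      (Pool.Agent.L7h44.BP.s_TYII Pool.Agent.L7h44.BP.s_K2)))

end Pool.Agent.Results.MP_b354c3_nt.LargeFactorEveryDegree
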