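import Pool.Agent.L7h58.BP.Ap
import Pool.Agent.L7h58.BP.Mul
import Pool.Agent.L7h10.BP.GAU
import Pool.Agent.L7h10.BP.RED
import Pool.Agent.L7h10.BP.RED2
import Pool.Agent.L7h10.BP.CRI
import Pool.Agent.L7h10.BP.LUC
import Pool.Agent.L7h10.BP.CEN
import Pool.Agent.L7h10.BP.SIZ
import Pool.Agent.L7h10.BP.DDF
import Pool.Agent.L7h29.BP.Fac
import Pool.Agent.L7h29.BP.Two
import Pool.Agent.L7h29.BP.Nrt
import Pool.Agent.L7h29.BP.Ob
import Pool.Agent.L7h30.BP.Bt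
import Pool.Agent.L7h30.BP.Dvq
import Pool.Agent.L7h30.BP.Dvm
import Pool.Agent.L7h30.BP.Dv
import Pool.Agent.L7h30.BP.Ord
import Pool.Agent.L7h30.BP.Tda
import Pool.Agent.L7h30.BP.Tad
import Pool.Agent.L7h60.BP.Hta
import Pool.Agent.L7h16.BP.Htt
import Pool.Agent.L7h61.BP.Dva
import Pool.Agent.L7h63.BP.Bad
import Pool.Agent.L7h79.BP.Dls
import Pool.Agent.L7h79.BP.Prc
import Pool.Agent.L7h25.BP.Var
import Pool.Agent.L7h25.BP.Lsv
import Pool.Agent.L7h75.BP.Twg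
import Pool.Agent.L7h75.BP.Qf4
import Pool.Agent.L7h96.BP.Pog
import Pool.Agent.L7h64.BP.Nr4

set_option autoImplicit false

/-!
# Bernoulli polynomials whose degree is a fixed multiple of a prime; quadratic factors
-/

namespace Pool.Agent.Results.MP_b354c3_nt.MultiplesOfPrimes

open Polynomial Filter Pool.Agent.L7h58.BP

theorem hI : S_CRI := Pool.Agent.L7h10.BP.s_CRI Pool.Agent.L7h10.BP.s_GAU Pool.Agent.L7h10.BP.s_RED

theorem hL : S_LOC := Pool.Agent.L7h10.BP.s_LOC hI Pool.Agent.L7h10.BP.s_LUC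

theorem hT : S_TWO := Pool.Agent.L7h29.BP.s_TWO hI

theorem hG : S_TWG := Pool.Agent.L7h75.BP.s_TWG hI

theorem hH : S_TH4 := Pool.Agent.L7h64.BP.s_TH4 hI Pool.Agent.L7h64.BP.s_NR4

theorem hV : S_LSV := Pool.Agent.L7h25.BP.s_LSV (Pool.Agent.L7h25.BP.s_VAR
  Pool.Agent.L7h79.BP.s_DLS) Pool.Agent.L7h79.BP.s_PRC

theorem hO : S_ORD := Pool.Agent.L7h30.BP.s_ORD Pool.Agent.L7h29.BP.s_OB
  (Pool.Agent.L7h30.BP.s_DV Pool.Agent.L7h30.BP.s_BT
    (Pool.Agent.L7h61.BP.s_DVA (Pool.Agent.L7h16.BP.s_HTT Pool.Agent.L7h60.BP.s_HTA))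
    (Pool.Agent.L7h30.BP.s_DVQ Pool.Agent.L7h30.BP.s_BT)
    (Pool.Agent.L7h30.BP.s_DVM Pool.Agent.L7h30.BP.s_BT))

theorem hP : S_POG := Pool.Agent.L7h96.BP.s_POG hI Pool.Agent.L7h10.BP.s_RED2
  Pool.Agent.L7h29.BP.s_NRT

theorem hQ : S_QF4 := Pool.Agent.L7h75.BP.s_QF4

theorem hB : S_BAD := Pool.Agent.L7h63.BP.s_BAD Pool.Agent.L7h10.BP.s_SIZ
  (Pool.Agent.L7h10.BP.s_DDF (Pool.Agent.L7h30.BP.s_TAD Pool.Agent.L7h30.BP.s_TDA))

/-- (1) For every fixed even `m ≥ 2` the primes `q` for which `B_{mq}(x)` has a factor, irreducible over `ℚ`, of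
degree at least `m (q - 1)` have relative density 1 in the set of all primes.
(2) `B_{4q}(x)` is irreducible over `ℚ` for almost all primes `q` with `q = 2 mod 3` or `q = 7 mod 9`: the
exceptions have relative density 0 in the set of all primes; so `B_{4q}(x)` is irreducible for a set of primes of
lower density at least `2/3`.
(3) For even `n ≥ 1` the polynomial `B_n(x)` has a factor of degree 2 only if `n = 2 mod 12`, and at most
`C N^(5/6)` even `n ≤ N` have such a factor. -/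
theorem result :
    (∀ m : ℕ, Even m → 2 ≤ m → Tendsto (fun x : ℕ =>
      (Nat.card {q : ℕ // q.Prime ∧ q ≤ x ∧ ∃ h : ℚ[X], Irreducible h ∧
        h ∣ Polynomial.bernoulli (m * q) ∧ m * (q - 1) ≤ h.natDegree} : ℝ) /
        (Nat.card {q : ℕ // q.Prime ∧ q ≤ x} : ℝ)) atTop (nhds 1)) ∧
    (Tendsto (fun x : ℕ =>
      (Nat.card {q : ℕ // q.Prime ∧ q ≤ x ∧ (q % 3 = 2 ∨ q % 9 = 7) ∧
        ¬ Irreducible (Polynomial.bernoulli (4 * q))} : ℝ) /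
        (Nat.card {q : ℕ // q.Prime ∧ q ≤ x} : ℝ)) atTop (nhds 0) ∧
      ∀ ε : ℝ, 0 < ε → ∀ᶠ x : ℕ in atTop,
        (2 / 3 - ε) * (Nat.card {q : ℕ // q.Prime ∧ q ≤ x} : ℝ) ≤
        (Nat.card {q : ℕ // q.Prime ∧ q ≤ x ∧ Irreducible (Polynomial.bernoulli (4 * q))} : ℝ)) ∧
    (∀ (n : ℕ) (f : ℚ[X]), Even n → 1 ≤ n → f.natDegree = 2 →
      f ∣ Polynomial.bernoulli n → n % 12 = 2) ∧
    ∃ C : ℝ, 0 < C ∧ ∀ N : ℕ, 1 ≤ N →
      (Nat.card {n : ℕ // 1 ≤ n ∧ n ≤ N ∧ Even n ∧ ∃ f : ℚ[X], f.natDegree = 2 ∧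
        f ∣ Polynomial.bernoulli n} : ℝ) ≤ C * (N : ℝ) ^ (5 / 6 : ℝ) := by
  have hc : ∀ x : ℕ, (Nat.card {q : ℕ // q.Prime ∧ q ≤ x} : ℝ) = (cnt x (fun _ => True) : ℝ) := by
    intro x
    unfold cnt
    simp
  have hmb := s_MULB hL hT hH hV hO
  refine ⟨?_, ⟨?_, ?_⟩, s_QUA hP hQ Pool.Agent.L7h10.BP.s_CEN hB⟩
  · intro m hm hm2
    have h := dens_one (P := fun q => ∃ h : ℚ[X], Irreducible h ∧
      h ∣ Polynomial.bernoulli (m * q) ∧ m * (q - 1) ≤ h.natDegree)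
      (s_MULA hL hG Pool.Agent.L7h29.BP.s_FAC hV hO m hm hm2)
    simp only [hc]
    exact h
  · have h := dens_zero hmb
    simp only [hc]
    exact h
  · intro ε hε
    have h := two_thirds (P := fun q => Irreducible (Polynomial.bernoulli (4 * q))) hmb ε hε
    simp only [hc]
    exact h

end Pool.Agent.Results.MP_b354c3_nt.MultiplesOfPrimes
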